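import Pool.Agent.Y922.DZ.Prod
import Pool.Agent.Y922.ZF.Inst
import Pool.Agent.Y294.LR.Fin

/-!
# The algebra of the dilated multiple zeta values
-/

set_option autoImplicit false

open Finset Filter Topology

namespace Pool.Agent.Y922.DZ

open Pool.Agent.Y922.ZF Pool.Agent.Y294.LR Pool.Agent.TH818.AP

/-- the coefficients as an arithmetic function -/
noncomputable def coA (l : List ℕ) : ArithmeticFunction ℂ := ⟨fun N => (co l N : ℂ), by
  rw [co, cf_zero]; exact Nat.cast_zero⟩

theorem coA_apply (l : List ℕ) (N : ℕ) : coA l N = (co l N : ℂ) := rfl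

theorem term_eq (l : List ℕ) {t : ℝ} (ht : t ≠ 0) (N : ℕ) :
    LSeries.term (fun n => coA l n) (t : ℂ) N = (((co l N : ℝ) * (N : ℝ) ^ (-t) : ℝ) : ℂ) := by
  rw [LSeries.term_def]
  split_ifs with h
  · rw [h, Nat.cast_zero, Real.zero_rpow (neg_ne_zero.2 ht), mul_zero, Complex.ofReal_zero]
  · rw [coA_apply, Complex.ofReal_mul, Complex.ofReal_cpow (Nat.cast_nonneg N), div_eq_mul_inv, ← Complex.cpow_neg]
    push_cast
    rfl

theorem LS_z {t : ℝ} (ht : t ≠ 0) {l : List ℕ} (hl : ∀ s ∈ l, 1 ≤ s) (h : Cv t l) :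
    LSeriesSummable (fun n => coA l n) (t : ℂ) ∧ LSeries (fun n => coA l n) (t : ℂ) = ((z l t : ℝ) : ℂ) := by
  have h1 : HasSum (LSeries.term (fun n => coA l n) (t : ℂ)) ((z l t : ℝ) : ℂ) := by
    have h2 := (hasSum_z ht hl h).mapL Complex.ofRealCLM
    have h3 : LSeries.term (fun n => coA l n) (t : ℂ) = fun N => Complex.ofRealCLM ((co l N : ℝ) * (N : ℝ) ^ (-t)) := by
      funext N
      rw [term_eq l ht]
      rfl
    rw [h3]
    exact h2
  exact ⟨h1.summable, h1.tsum_eq⟩

theorem z_an {a : ℝ} (ha : 0 < a) {l : List ℕ} (hl : ∀ s ∈ l, 1 ≤ s) (h : Cv a l) :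
    AnalyticOnNhd ℝ (z l) (Set.Ici a) := by
  obtain ⟨a1, ha1, h1⟩ := h.lower
  set a2 := max a1 (a / 2) with ha2
  have h2 : Cv a2 l := h1.mono (le_max_left _ _)
  have ha20 : 0 < a2 := lt_of_lt_of_le (by linarith) (le_max_right _ _)
  have ha2a : a2 < a := max_lt ha1 (by linarith)
  intro t ht
  have hta : a2 < t := lt_of_lt_of_le ha2a ht
  have h3 : AnalyticAt ℂ (LSeries fun n => coA l n) (t : ℂ) := by
    refine LSeries_analyticOnNhd _ _ ?_
    show LSeries.abscissaOfAbsConv _ < ((t : ℂ).re : EReal)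
    refine lt_of_le_of_lt (LS_z ha20.ne' hl h2).1.abscissaOfAbsConv_le ?_
    rw [Complex.ofReal_re, Complex.ofReal_re]
    exact_mod_cast hta
  have h4 : AnalyticAt ℝ (fun t : ℝ => (LSeries (fun n => coA l n) (t : ℂ)).re) t :=
    (Complex.reCLM.analyticAt _).comp ((h3.restrictScalars (𝕜 := ℝ)).fun_comp (Complex.ofRealCLM.analyticAt t))
  refine h4.congr ?_
  filter_upwards [eventually_gt_nhds hta] with x hx
  rw [(LS_z (ha20.trans hx).ne' hl (h2.mono hx.le)).2, Complex.ofReal_re]

theorem pi_pow_an (e : ℕ) (t : ℝ) : AnalyticAt ℝ (fun t : ℝ => Real.pi ^ ((e : ℝ) * t)) t := by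
  have h1 : (fun t : ℝ => Real.pi ^ ((e : ℝ) * t)) = fun t => Real.exp (Real.log Real.pi * ((e : ℝ) * t)) := by
    funext t
    rw [Real.rpow_def_of_pos Real.pi_pos]
  rw [h1]
  exact (analyticAt_const.mul (analyticAt_const.mul analyticAt_id)).rexp

/-- the indices: convergent words and exponents of `π` -/
abbrev La (a : ℝ) : Type := {w : List ℕ // (∀ s ∈ w, 1 ≤ s) ∧ Cv a w} × ℕ

/-- the functions -/
noncomputable def HH {a : ℝ} (l : La a) (t : ℝ) : ℝ := Real.pi ^ ((l.2 : ℝ) * t) * z l.1.1 t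

theorem HH_an {a : ℝ} (ha : 0 < a) (l : La a) : AnalyticOnNhd ℝ (HH l) (Set.Ici a) := fun t ht =>
  (pi_pow_an l.2 t).mul (z_an ha l.1.2.1 l.1.2.2 t ht)

theorem log_pi_ne (e e' : ℕ) (x y : ℕ) (hx : x ≠ 0) (hy : y ≠ 0)
    (h : (e : ℝ) * Real.log Real.pi - Real.log x = (e' : ℝ) * Real.log Real.pi - Real.log y) : e = e' := by
  by_contra hne
  have hx0 : (0 : ℝ) < x := Nat.cast_pos.2 (Nat.pos_of_ne_zero hx)
  have hy0 : (0 : ℝ) < y := Nat.cast_pos.2 (Nat.pos_of_ne_zero hy)
  have h1 : Real.log (Real.pi ^ e * y) = Real.log (Real.pi ^ e' * x) := by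
    rw [Real.log_mul (by positivity) hy0.ne', Real.log_mul (by positivity) hx0.ne', Real.log_pow, Real.log_pow]
    linarith
  have h2 : Real.pi ^ e * y = Real.pi ^ e' * x :=
    Real.log_injOn_pos (Set.mem_Ioi.2 (by positivity)) (Set.mem_Ioi.2 (by positivity)) h1
  have htr := Pool.Agent.H340R2.LW.transcendental_pi
  apply htr
  refine ⟨Polynomial.C (y : ℚ) * Polynomial.X ^ e - Polynomial.C (x : ℚ) * Polynomial.X ^ e', ?_, ?_⟩
  · intro h0
    have h3 := congrArg (fun p => Polynomial.coeff p e) h0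
    simp only [Polynomial.coeff_sub, Polynomial.coeff_C_mul, Polynomial.coeff_X_pow, Polynomial.coeff_zero] at h3
    rw [if_pos trivial, if_neg hne, mul_one, mul_zero, sub_zero] at h3
    exact hy (by exact_mod_cast h3)
  · simp only [map_sub, map_mul, map_pow, Polynomial.aeval_C, Polynomial.aeval_X]
    simp only [eq_ratCast, Rat.cast_natCast]
    linarith

theorem no_ES_poly (D : Polynomial ℂ) (h : ES fun s : ℝ => D.eval (s : ℂ)) : D = 0 := by
  by_contra hD
  obtain ⟨c, hc, h1⟩ := lower D hD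
  obtain ⟨δ, hδ, h2⟩ := h
  obtain ⟨C, h3⟩ := h2.bound
  have h4 : Tendsto (fun s : ℝ => C * Real.exp (-(δ * s))) atTop (𝓝 (C * 0)) := by
    refine Tendsto.const_mul C (Real.tendsto_exp_atBot.comp ?_)
    exact tendsto_neg_atTop_atBot.comp (tendsto_id.const_mul_atTop hδ)
  rw [mul_zero] at h4
  obtain ⟨s, hs1, hs2, hs3⟩ := (h1.and (h3.and (h4.eventually_lt_const hc))).exists
  rw [Real.norm_of_nonneg (Real.exp_pos _).le] at hs2
  linarith

theorem AF_sum {L : Type} [DecidableEq L] (S : Finset L) (g : L → ArithmeticFunction ℂ) (N : ℕ) :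
    (∑ l ∈ S, g l) N = ∑ l ∈ S, g l N := by
  induction S using Finset.induction_on with
  | empty => rfl
  | insert l S hl ih => rw [Finset.sum_insert hl, Finset.sum_insert hl, ArithmeticFunction.add_apply, ih]

/-- Dirichlet series of linear combinations -/
theorem LS_lin {L : Type} [DecidableEq L] (S : Finset L) (c : L → ℂ) (g : L → ArithmeticFunction ℂ) (s : ℂ)
    (hg : ∀ l ∈ S, LSeriesSummable (fun n => g l n) s) :
    LSeriesSummable (fun n => (∑ l ∈ S, c l • g l) n) s ∧
      LSeries (fun n => (∑ l ∈ S, c l • g l) n) s = ∑ l ∈ S, c l * LSeries (fun n => g l n) s := by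
  induction S using Finset.induction_on with
  | empty =>
    have h1 : (fun n => (∑ l ∈ (∅ : Finset L), c l • g l) n) = fun n => (0 : ArithmeticFunction ℂ) n := by
      rw [Finset.sum_empty]
    rw [h1, LS_zero, Finset.sum_empty]
    refine ⟨?_, rfl⟩
    have h2 : (fun n => (0 : ArithmeticFunction ℂ) n) = 0 := by
      funext n
      rfl
    rw [h2]
    exact LSeriesSummable_zero
  | insert l S hl ih =>
    obtain ⟨h1, h2⟩ := ih fun l' hl' => hg l' (Finset.mem_insert_of_mem hl')
    have h3 := (hg l (Finset.mem_insert_self l S)).smul (c l)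
    have h4 : (fun n => (∑ l ∈ insert l S, c l • g l) n) = (c l • fun n => g l n) +
        fun n => (∑ l ∈ S, c l • g l) n := by
      rw [Finset.sum_insert hl]
      rfl
    rw [h4, Finset.sum_insert hl, LSeries_add h3 h1, h2, LSeries_smul]
    exact ⟨h3.add h1, rfl⟩

/-- linear independence over the polynomials -/
theorem lin_indep {a b : ℝ} (ha : 0 < a) (hab : a < b) (S : Finset (La a)) (p : La a → Polynomial ℝ)
    (h : ∀ t ∈ Set.Icc a b, ∑ l ∈ S, (p l).eval t * HH l t = 0) : ∀ l ∈ S, p l = 0 := by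
  classical
  -- continuation
  have han : AnalyticOnNhd ℝ (fun t => ∑ l ∈ S, (p l).eval t * HH l t) (Set.Ici a) := by
    intro t ht
    refine Finset.analyticAt_fun_sum _ fun l _ => ?_
    have h1 : AnalyticAt ℝ (fun t : ℝ => (p l).eval t) t := by
      have := (AnalyticOnNhd.aeval_polynomial (analyticOnNhd_id (𝕜 := ℝ) (E := ℝ) (s := Set.univ)) (p l)) t
        (Set.mem_univ t)
      simpa using this
    exact h1.mul (HH_an ha l t ht)
  set m : ℝ := (a + b) / 2 with hm
  have hm0 : m ∈ Set.Ici a := by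
    show a ≤ m
    rw [hm]
    linarith
  have hfreq : ∃ᶠ t in 𝓝[≠] m, ∑ l ∈ S, (p l).eval t * HH l t = 0 := by
    refine Filter.Eventually.frequently ?_
    refine eventually_nhdsWithin_of_eventually_nhds ?_
    have h2 : Set.Icc a b ∈ 𝓝 m := Icc_mem_nhds (by rw [hm]; linarith) (by rw [hm]; linarith)
    filter_upwards [h2] with t ht
    exact h t ht
  have hall := han.eqOn_zero_of_preconnected_of_frequently_eq_zero isPreconnected_Ici hm0 hfreq
  -- the general theorem
  set E : ℕ := S.sup (fun l => l.2) + 1 with hE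
  set K : ℕ := S.sup (fun l => (p l).natDegree) + 1 with hK
  have hEl : ∀ l ∈ S, l.2 < E := fun l hl => Nat.lt_succ_of_le (Finset.le_sup (f := fun l : La a => l.2) hl)
  have hKl : ∀ l ∈ S, (p l).natDegree < K := fun l hl =>
    Nat.lt_succ_of_le (Finset.le_sup (f := fun l => (p l).natDegree) hl)
  set κ : Fin E × Fin K → La a → ℂ := fun j l => if l.2 = j.1 then (((p l).coeff j.2 : ℝ) : ℂ) else 0 with hκ
  set F : Fin E × Fin K → ArithmeticFunction ℂ := fun j => ∑ l ∈ S, κ j l • coA l.1.1 with hF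
  have hsum : ∀ (j : Fin E × Fin K) (t : ℝ), a ≤ t → LSeriesSummable (fun n => F j n) (t : ℂ) ∧
      LSeries (fun n => F j n) (t : ℂ) = ∑ l ∈ S, κ j l * ((z l.1.1 t : ℝ) : ℂ) := by
    intro j t ht
    have ht0 : t ≠ 0 := (ha.trans_le ht).ne'
    have h1 := LS_lin S (κ j) (fun l => coA l.1.1) (t : ℂ) fun l _ => (LS_z ht0 l.1.2.1 (l.1.2.2.mono ht)).1
    refine ⟨h1.1, ?_⟩
    rw [h1.2]
    refine Finset.sum_congr rfl fun l _ => ?_
    rw [(LS_z ht0 l.1.2.1 (l.1.2.2.mono ht)).2]
  have hinj := inj (fun s => Real.Gamma s) gamma_large (fun _ : Fin E × Fin K => 0) (fun j => (j.1 : ℝ) * Real.log Real.pi)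
    (fun j s => (s : ℂ) ^ (j.2 : ℕ)) F (fun j => ⟨a, (hsum j a le_rfl).1⟩) (fun j => SE.id.pow _) ?_ ?_ ?_
  · -- conclusion
    intro l hl
    ext k
    rw [Polynomial.coeff_zero]
    by_cases hk : k < K
    · set j : Fin E × Fin K := (⟨l.2, hEl l hl⟩, ⟨k, hk⟩) with hj
      have h1 := hinj j
      -- the words with the given exponent of `π`
      set S' : Finset (List ℕ) := (S.filter fun l' => l'.2 = l.2).image fun l' => l'.1.1 with hS'
      have hpos : ∀ w ∈ S', ∀ s ∈ w, 1 ≤ s := by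
        intro w hw
        obtain ⟨l', -, rfl⟩ := Finset.mem_image.1 hw
        exact l'.1.2.1
      set al : List ℕ → ℂ := fun w => ∑ l' ∈ S, if l'.1.1 = w ∧ l'.2 = l.2 then (((p l').coeff k : ℝ) : ℂ) else 0 with hal
      have hone : ∀ l' ∈ S, l'.2 = l.2 → al l'.1.1 = (((p l').coeff k : ℝ) : ℂ) := by
        intro l' hl' hl2
        simp only [hal]
        rw [Finset.sum_eq_single l']
        · rw [if_pos ⟨rfl, hl2⟩]
        · intro l'' _ hne
          rw [if_neg]
          rintro ⟨h3, h4⟩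
          exact hne (Prod.ext (Subtype.ext h3) (h4.trans hl2.symm))
        · intro h3
          exact absurd hl' h3
      have hzero := cf_indep S' hpos al ?_
      · have h2 := hzero l.1.1 (Finset.mem_image.2 ⟨l, Finset.mem_filter.2 ⟨hl, rfl⟩, rfl⟩)
        rw [hone l hl rfl] at h2
        exact_mod_cast h2
      · intro m' N hN hNm _
        have h3 : ∑ w ∈ S', al w * (cf w m' N : ℂ) = F j N := by
          have h4 : ∀ w : List ℕ, (∀ s ∈ w, 1 ≤ s) → cf w m' N = co w N := by
            intro w hw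
            rcases w with _ | ⟨s, w⟩
            · rw [co, cf, cf]
            · exact cf_stable s (hw s (by simp)) w m' N hN hNm
          have h5 : F j N = ∑ l' ∈ S, κ j l' * (co l'.1.1 N : ℂ) := by
            simp only [hF]
            rw [AF_sum]
            refine Finset.sum_congr rfl fun l' _ => ?_
            rw [ArithmeticFunction.smul_map, smul_eq_mul, coA_apply]
          rw [h5, hS', Finset.sum_image, Finset.sum_filter]
          · refine Finset.sum_congr rfl fun l' hl' => ?_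
            simp only [hκ, hj]
            split_ifs with h6
            · rw [hone l' hl' h6, h4 l'.1.1 l'.1.2.1]
            · rw [zero_mul]
          · intro x hx y hy hxy
            have hx2 := (Finset.mem_filter.1 hx).2
            have hy2 := (Finset.mem_filter.1 hy).2
            exact Prod.ext (Subtype.ext hxy) (hx2.trans hy2.symm)
        rw [h3, h1]
        rfl
    · rw [Polynomial.coeff_eq_zero_of_natDegree_lt]
      exact lt_of_lt_of_le (hKl l hl) (not_lt.1 hk)
  · -- frequencies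
    intro i j x y hx hy hxy
    have h1 := log_pi_ne i.1 j.1 x y hx hy hxy
    show (i.1 : ℝ) * Real.log Real.pi = (j.1 : ℝ) * Real.log Real.pi
    rw [show ((i.1 : ℕ) : ℝ) = ((j.1 : ℕ) : ℝ) by rw [h1]]
  · -- slow coefficients
    intro κ' w c hc hES
    by_contra hcon
    obtain ⟨j0, hj0⟩ := Function.ne_iff.1 hcon
    have hj0' : c j0 ≠ 0 := hj0
    have hsame : ∀ j, c j ≠ 0 → j.1 = j0.1 := by
      intro j hj
      have h1 : (j.1 : ℝ) * Real.log Real.pi = (j0.1 : ℝ) * Real.log Real.pi := (hc j hj).2.trans (hc j0 hj0').2.symm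
      have h2 := log_pi_ne j.1 j0.1 1 1 one_ne_zero one_ne_zero (by rw [h1])
      exact Fin.ext h2
    set D : Polynomial ℂ := ∑ k : Fin K, Polynomial.monomial (k : ℕ) (c (j0.1, k)) with hD
    have hDev : ∀ s : ℝ, D.eval (s : ℂ) = ∑ j : Fin E × Fin K, c j * (s : ℂ) ^ (j.2 : ℕ) := by
      intro s
      rw [hD, Polynomial.eval_finsetSum, Fintype.sum_prod_type, Finset.sum_eq_single j0.1]
      · refine Finset.sum_congr rfl fun k _ => ?_
        rw [Polynomial.eval_monomial]
      · intro e _ he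
        refine Finset.sum_eq_zero fun k _ => ?_
        have : c (e, k) = 0 := by
          by_contra hne
          exact he (hsame (e, k) hne)
        rw [this, zero_mul]
      · intro h1
        exact absurd (Finset.mem_univ _) h1
    have hD0 : D = 0 := no_ES_poly D (by simpa only [hDev] using hES)
    have h3 : D.coeff (j0.2 : ℕ) = c j0 := by
      rw [hD, Polynomial.finsetSum_coeff, Finset.sum_eq_single j0.2]
      · rw [Polynomial.coeff_monomial, if_pos rfl]
      · intro k _ hk
        rw [Polynomial.coeff_monomial, if_neg]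
        intro h4
        exact hk (Fin.ext h4)
      · intro h1
        exact absurd (Finset.mem_univ _) h1
    rw [hD0, Polynomial.coeff_zero] at h3
    exact hj0' h3.symm
  · -- the relation
    filter_upwards [eventually_ge_atTop a] with t ht
    have h1 : ∑ l ∈ S, (p l).eval t * HH l t = 0 := hall ht
    have h2 : ∀ j : Fin E × Fin K, ((Real.Gamma t : ℝ) : ℂ) ^ 0 * ((Real.exp ((j.1 : ℝ) * Real.log Real.pi * t) : ℝ) : ℂ) *
        (t : ℂ) ^ (j.2 : ℕ) * LSeries (fun n => F j n) t = ∑ l ∈ S, (if l.2 = (j.1 : ℕ) then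
          ((((p l).coeff j.2 : ℝ) : ℂ) * (t : ℂ) ^ (j.2 : ℕ)) * ((HH l t : ℝ) : ℂ) else 0) := by
      intro j
      rw [(hsum j t ht).2, pow_zero, one_mul, Finset.mul_sum]
      refine Finset.sum_congr rfl fun l _ => ?_
      simp only [hκ]
      split_ifs with h3
      · rw [HH, h3, Real.rpow_def_of_pos Real.pi_pos]
        push_cast
        rw [show (Real.log Real.pi : ℂ) * ((j.1 : ℕ) * t) = (j.1 : ℕ) * Real.log Real.pi * t by ring]
        ring
      · rw [zero_mul, mul_zero]
    rw [Finset.sum_congr rfl fun j _ => h2 j, Finset.sum_comm]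
    have h4 : ∀ l ∈ S, ∑ j : Fin E × Fin K, (if l.2 = (j.1 : ℕ) then
        ((((p l).coeff j.2 : ℝ) : ℂ) * (t : ℂ) ^ (j.2 : ℕ)) * ((HH l t : ℝ) : ℂ) else 0) =
        (((p l).eval t * HH l t : ℝ) : ℂ) := by
      intro l hl
      rw [Fintype.sum_prod_type, Finset.sum_eq_single ⟨l.2, hEl l hl⟩]
      · simp only [if_true]
        rw [← Finset.sum_mul, Polynomial.eval_eq_sum_range' (hKl l hl), ← Fin.sum_univ_eq_sum_range
          (fun i => (p l).coeff i * t ^ i)]
        push_cast
        rfl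
      · intro e _ he
        refine Finset.sum_eq_zero fun k _ => ?_
        rw [if_neg]
        intro h5
        exact he (Fin.ext h5.symm)
      · intro h5
        exact absurd (Finset.mem_univ _) h5
    rw [Finset.sum_congr rfl h4, ← Complex.ofReal_sum, h1, Complex.ofReal_zero]

/-- the algebra -/
theorem algFam {a b : ℝ} (ha : 0 < a) (hab : a < b) : AlgFam a b (fun l : La a => HH l) where
  an l := (HH_an ha l).mono fun t ht => ht.1
  one := ⟨{(⟨[], by simp, trivial⟩, 0)}, fun _ => 1, fun t _ => by simp [HH, z]⟩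
  mul l m := by
    classical
    obtain ⟨c, hc, h⟩ := z_mul l.1.2.2 m.1.2.2
    have hok : ∀ x ∈ c.support, (∀ s ∈ x, 1 ≤ s) ∧ Cv a x := fun x hx =>
      ⟨(hc x hx).1 l.1.2.1 m.1.2.1, (hc x hx).2.2 l.1.2.2 m.1.2.2⟩
    refine ⟨(c.support.subtype fun w => (∀ s ∈ w, 1 ≤ s) ∧ Cv a w).image fun w => (w, l.2 + m.2),
      fun x => c x.1.1, fun t ht => ?_⟩
    have h1 : Real.pi ^ ((l.2 : ℝ) * t) * Real.pi ^ ((m.2 : ℝ) * t) = Real.pi ^ (((l.2 + m.2 : ℕ) : ℝ) * t) := by
      rw [← Real.rpow_add Real.pi_pos]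
      congr 1
      push_cast
      ring
    have h2 : HH l t * HH m t = Real.pi ^ (((l.2 + m.2 : ℕ) : ℝ) * t) * Ez t c := by
      rw [← h t ht.1, ← h1, HH, HH]
      ring
    rw [h2, Finset.sum_image (by
      intro x _ y _ hxy
      exact (Prod.mk.inj hxy).1), Ez, Finsupp.linearCombination_apply, Finsupp.sum, Finset.mul_sum,
      ← Finset.sum_subtype_of_mem _ hok]
    refine Finset.sum_congr rfl fun w _ => ?_
    rw [HH, smul_eq_mul]
    ring
  ind := lin_indep ha hab

end Pool.Agent.Y922.DZ
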