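import Mathlib

/-!
# Representations of integers by words
-/

set_option autoImplicit false

open Finset

namespace Pool.Agent.Y922.DZ

/-- the number of representations `N = ∏ k_i ^ w_i` with `m > k_1 > k_2 > ... ≥ 2` -/
def R : List ℕ → ℕ → ℕ → ℕ
  | [], _, N => if N = 1 then 1 else 0
  | s :: l, m, N => ∑ j ∈ Ico 2 m, if j ^ s ∣ N then R l j (N / j ^ s) else 0

/-- the number of representations `N = ∏ k_i ^ w_i` with `m > k_1 > k_2 > ... ≥ 1` -/
def cf : List ℕ → ℕ → ℕ → ℕ
  | [], _, N => if N = 1 then 1 else 0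
  | s :: l, m, N => ∑ j ∈ Ico 1 m, if j ^ s ∣ N then cf l j (N / j ^ s) else 0

theorem R_cons_ne {s : ℕ} {l : List ℕ} {m N : ℕ} (h : R (s :: l) m N ≠ 0) :
    ∃ j, 2 ≤ j ∧ j < m ∧ j ^ s ∣ N ∧ R l j (N / j ^ s) ≠ 0 := by
  rw [R] at h
  obtain ⟨j, hj, h1⟩ := Finset.exists_ne_zero_of_sum_ne_zero h
  rw [mem_Ico] at hj
  split_ifs at h1 with h2
  · exact ⟨j, hj.1, hj.2, h2, h1⟩
  · exact absurd rfl h1

theorem R_cons_ge {s : ℕ} {l : List ℕ} {m N j : ℕ} (h1 : 2 ≤ j) (h2 : j < m) (h3 : j ^ s ∣ N)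
    (h4 : R l j (N / j ^ s) ≠ 0) : R (s :: l) m N ≠ 0 := by
  rw [R]
  intro h0
  have h5 := (Finset.sum_eq_zero_iff.1 h0) j (mem_Ico.2 ⟨h1, h2⟩)
  rw [if_pos h3] at h5
  exact h4 h5

/-- the number of prime factors with multiplicity -/
noncomputable def Om (N : ℕ) : ℕ := ArithmeticFunction.cardFactors N

theorem Om_mul {a b : ℕ} (ha : a ≠ 0) (hb : b ≠ 0) : Om (a * b) = Om a + Om b :=
  ArithmeticFunction.cardFactors_mul ha hb

theorem Om_pow (a k : ℕ) : Om (a ^ k) = k * Om a := ArithmeticFunction.cardFactors_pow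

theorem Om_pos {a : ℕ} (ha : 2 ≤ a) : 1 ≤ Om a := by
  rw [Nat.one_le_iff_ne_zero]
  intro h
  have h1 : ArithmeticFunction.cardFactors a = 0 := h
  rw [ArithmeticFunction.cardFactors_eq_zero_iff_eq_zero_or_one] at h1
  omega

theorem Om_one_prime {a : ℕ} (h : Om a = 1) : a.Prime :=
  ArithmeticFunction.cardFactors_eq_one_iff_prime.1 h

theorem weight_le (l : List ℕ) : ∀ m N : ℕ, N ≠ 0 → R l m N ≠ 0 → l.sum ≤ Om N := by
  induction l with
  | nil =>
    intro m N _ _
    simp
  | cons s l ih =>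
    intro m N hN h
    obtain ⟨j, hj1, _, hj3, hj4⟩ := R_cons_ne h
    obtain ⟨M, rfl⟩ := hj3
    have hj0 : 0 < j ^ s := by positivity
    rw [Nat.mul_div_cancel_left M hj0] at hj4
    have hM : M ≠ 0 := by
      rintro rfl
      exact hN (by simp)
    rw [Om_mul hj0.ne' hM, Om_pow, List.sum_cons]
    have h1 := ih j M hM hj4
    have h2 := Om_pos hj1
    nlinarith

theorem prime_lt (l : List ℕ) : ∀ m N : ℕ, R l m N ≠ 0 → ∀ q : ℕ, q.Prime → q ∣ N → q < m := by
  induction l with
  | nil =>
    intro m N h q hq hqN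
    rw [R] at h
    split_ifs at h with h1
    · rw [h1, Nat.dvd_one] at hqN
      exact absurd hqN hq.ne_one
    · exact absurd rfl h
  | cons s l ih =>
    intro m N h q hq hqN
    obtain ⟨j, hj1, hj2, hj3, hj4⟩ := R_cons_ne h
    obtain ⟨M, rfl⟩ := hj3
    have hj0 : 0 < j ^ s := by positivity
    rw [Nat.mul_div_cancel_left M hj0] at hj4
    rcases (Nat.Prime.dvd_mul hq).1 hqN with h1 | h1
    · have h2 := hq.dvd_of_dvd_pow h1
      have h3 := Nat.le_of_dvd (by omega) h2
      omega
    · have h2 := ih j M hj4 q hq h1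
      omega

/-- the test integers: `∏ q_i ^ w_i` with decreasing primes -/
noncomputable def tn : List ℕ → ℕ
  | [] => 1
  | s :: l => (Nat.nth Nat.Prime l.length) ^ s * tn l

theorem q_prime (n : ℕ) : (Nat.nth Nat.Prime n).Prime := Nat.prime_nth_prime n

theorem q_lt {m n : ℕ} (h : m < n) : Nat.nth Nat.Prime m < Nat.nth Nat.Prime n :=
  Nat.nth_strictMono Nat.infinite_setOfPred_prime h

theorem tn_ne (l : List ℕ) : tn l ≠ 0 := by
  induction l with
  | nil => exact one_ne_zero
  | cons s l ih => exact mul_ne_zero (pow_ne_zero _ (q_prime _).ne_zero) ih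

theorem Om_tn (l : List ℕ) : Om (tn l) = l.sum := by
  induction l with
  | nil =>
    show ArithmeticFunction.cardFactors 1 = 0
    exact ArithmeticFunction.cardFactors_one
  | cons s l ih =>
    rw [tn, Om_mul (pow_ne_zero _ (q_prime _).ne_zero) (tn_ne l), Om_pow, ih, List.sum_cons]
    have h1 : Om (Nat.nth Nat.Prime l.length) = 1 := ArithmeticFunction.cardFactors_apply_prime (q_prime _)
    rw [h1, mul_one]

theorem tn_primes (l : List ℕ) : ∀ q : ℕ, q.Prime → q ∣ tn l → q < Nat.nth Nat.Prime l.length := by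
  induction l with
  | nil =>
    intro q hq h
    rw [tn, Nat.dvd_one] at h
    exact absurd h hq.ne_one
  | cons s l ih =>
    intro q hq h
    rw [List.length_cons]
    rcases (Nat.Prime.dvd_mul hq).1 h with h1 | h1
    · have h2 := hq.dvd_of_dvd_pow h1
      have h3 := (Nat.prime_dvd_prime_iff_eq hq (q_prime _)).1 h2
      rw [h3]
      exact q_lt (Nat.lt_succ_self _)
    · exact (ih q hq h1).trans (q_lt (Nat.lt_succ_self _))

theorem R_tn (l : List ℕ) : R l (Nat.nth Nat.Prime l.length) (tn l) ≠ 0 := by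
  induction l with
  | nil => simp [R, tn]
  | cons s l ih =>
    refine R_cons_ge (j := Nat.nth Nat.Prime l.length) (q_prime _).two_le ?_ ?_ ?_
    · rw [List.length_cons]
      exact q_lt (Nat.lt_succ_self _)
    · exact Dvd.intro _ rfl
    · rw [tn, Nat.mul_div_cancel_left _ (pow_pos (q_prime _).pos _)]
      exact ih

theorem R_mono (l : List ℕ) {m m' N : ℕ} (h : m ≤ m') (h0 : R l m N ≠ 0) : R l m' N ≠ 0 := by
  rcases l with _ | ⟨s, l⟩
  · exact h0
  · obtain ⟨j, hj1, hj2, hj3, hj4⟩ := R_cons_ne h0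
    exact R_cons_ge hj1 (by omega) hj3 hj4

theorem eq_of_R (w : List ℕ) : ∀ (l : List ℕ) (m : ℕ), (∀ s ∈ w, 1 ≤ s) → (∀ s ∈ l, 1 ≤ s) → R l m (tn w) ≠ 0 →
    l.sum = w.sum → l = w := by
  induction w with
  | nil =>
    intro l m _ hl _ hs
    rcases l with _ | ⟨s, l⟩
    · rfl
    · exfalso
      have h1 := hl s (by simp)
      rw [List.sum_cons, List.sum_nil] at hs
      omega
  | cons s w ih =>
    intro l m hw hl h hs
    have hs1 : 1 ≤ s := hw s (by simp)
    rcases l with _ | ⟨s', l⟩
    · exfalso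
      rw [List.sum_cons, List.sum_nil] at hs
      omega
    have hs1' : 1 ≤ s' := hl s' (by simp)
    obtain ⟨j, hj1, hj2, hj3, hj4⟩ := R_cons_ne h
    have hj0 : 0 < j ^ s' := by positivity
    set Q := Nat.nth Nat.Prime w.length with hQ
    have hQp : Q.Prime := q_prime _
    obtain ⟨M, hM⟩ := hj3
    have hM0 : M ≠ 0 := by
      rintro rfl
      rw [mul_zero] at hM
      exact tn_ne _ hM
    rw [hM, Nat.mul_div_cancel_left M hj0] at hj4
    have h1 := weight_le l j M hM0 hj4
    have h2 : (s :: w).sum = s' * Om j + Om M := by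
      rw [← Om_tn, hM, Om_mul hj0.ne' hM0, Om_pow]
    rw [List.sum_cons] at hs
    rw [← hs] at h2
    have h3 : s' * Om j ≤ s' * 1 := by omega
    have h4 : Om j ≤ 1 := Nat.le_of_mul_le_mul_left h3 (by omega)
    have h5 := Om_pos hj1
    have hjp : j.Prime := Om_one_prime (le_antisymm h4 h5)
    have h6 : Q ^ s * tn w = j ^ s' * M := hM
    -- `j = Q`
    have hjQ : j = Q := by
      have h7 : Q ∣ j ^ s' * M := by
        rw [← h6]
        exact Dvd.dvd.mul_right (dvd_pow_self _ (by omega)) _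
      rcases (Nat.Prime.dvd_mul hQp).1 h7 with h8 | h8
      · exact ((Nat.prime_dvd_prime_iff_eq hQp hjp).1 (hQp.dvd_of_dvd_pow h8)).symm
      · exfalso
        have h9 := prime_lt l j M hj4 Q hQp h8
        have h10 : j ∣ Q ^ s * tn w := by
          rw [h6]
          exact Dvd.dvd.mul_right (dvd_pow_self _ (by omega)) _
        rcases (Nat.Prime.dvd_mul hjp).1 h10 with h11 | h11
        · have := (Nat.prime_dvd_prime_iff_eq hjp hQp).1 (hjp.dvd_of_dvd_pow h11)
          omega
        · have := tn_primes w j hjp h11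
          omega
    subst hjQ
    have hQM : ¬ Q ∣ M := fun h7 => lt_irrefl _ (prime_lt l Q M hj4 Q hQp h7)
    have hQw : ¬ Q ∣ tn w := fun h7 => lt_irrefl _ (tn_primes w Q hQp h7)
    have hss : s = s' := by
      have h7 : (Q ^ s * tn w).factorization Q = s := by
        rw [Nat.factorization_mul (pow_ne_zero _ hQp.ne_zero) (tn_ne w)]
        simp [hQp.factorization_self, Nat.factorization_eq_zero_of_not_dvd hQw]
      have h8 : (Q ^ s' * M).factorization Q = s' := by
        rw [Nat.factorization_mul (pow_ne_zero _ hQp.ne_zero) hM0]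
        simp [hQp.factorization_self, Nat.factorization_eq_zero_of_not_dvd hQM]
      rw [← h7, h6, h8]
    subst hss
    have hMw : M = tn w := (Nat.eq_of_mul_eq_mul_left (pow_pos hQp.pos s) h6).symm
    rw [hMw] at hj4
    rw [ih l Q (fun x hx => hw x (List.mem_cons_of_mem _ hx)) (fun x hx => hl x (List.mem_cons_of_mem _ hx)) hj4
      (by rw [List.sum_cons] at hs; omega)]

theorem cf_nil_one (s : ℕ) (l : List ℕ) (N : ℕ) : cf (s :: l) 1 N = 0 := by
  rw [cf]
  simp

/-- passage between the two kinds of representations -/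
theorem cf_eq (w : List ℕ) : ∀ m N : ℕ, 2 ≤ m → cf w m N = R w m N + if w = [] then 0 else R w.dropLast m N := by
  induction w with
  | nil =>
    intro m N _
    simp [cf, R]
  | cons s l ih =>
    intro m N hm
    rw [cf, if_neg (List.cons_ne_nil s l), ← Finset.add_sum_Ioo_eq_sum_Ico (by omega : 1 < m)]
    have h1 : Ioo 1 m = Ico 2 m := by
      ext j
      simp only [mem_Ioo, mem_Ico]
      omega
    rw [h1]
    rcases l with _ | ⟨t, l⟩
    · rw [one_pow, if_pos (one_dvd _), Nat.div_one]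
      show cf [] 1 N + _ = R [s] m N + R [] m N
      have h2 : ∀ k M, cf [] k M = R [] k M := fun k M => rfl
      rw [add_comm]
      congr 1
    · rw [one_pow, if_pos (one_dvd _), Nat.div_one, cf_nil_one, zero_add]
      have h2 : (s :: t :: l).dropLast = s :: (t :: l).dropLast := rfl
      rw [h2, R, R, ← Finset.sum_add_distrib]
      refine Finset.sum_congr rfl fun j hj => ?_
      rw [mem_Ico] at hj
      split_ifs with h3
      · rw [ih j _ hj.1, if_neg (List.cons_ne_nil t l)]
      · rfl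

theorem ite_aux (P Q D : Prop) [Decidable P] [Decidable Q] [Decidable D] (a r : ℂ) :
    a * ((if P then (1 : ℂ) else 0) + if Q ∧ D then 1 else 0) * r =
      (if P then a * r else 0) + (if D then (if Q then a * r else 0) else 0) := by
  by_cases h2 : P <;> by_cases h3 : Q <;> by_cases h4 : D <;> simp [h2, h3, h4] <;> ring

/-- the counting functions of the words are linearly independent -/
theorem cf_indep (S : Finset (List ℕ)) (hS : ∀ w ∈ S, ∀ s ∈ w, 1 ≤ s) (a : List ℕ → ℂ)
    (h : ∀ m N : ℕ, N ≠ 0 → N < m → 2 ≤ m → ∑ w ∈ S, a w * (cf w m N : ℂ) = 0) : ∀ w ∈ S, a w = 0 := by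
  classical
  set X : Finset (List ℕ) := S ∪ S.image List.dropLast with hX
  set b : List ℕ → ℂ := fun x => ∑ w ∈ S, a w * ((if w = x then 1 else 0) + if w ≠ [] ∧ w.dropLast = x then 1 else 0)
    with hb
  have hXpos : ∀ x ∈ X, ∀ s ∈ x, 1 ≤ s := by
    intro x hx s hs
    rcases Finset.mem_union.1 hx with h1 | h1
    · exact hS x h1 s hs
    · obtain ⟨w, hw, rfl⟩ := Finset.mem_image.1 h1
      exact hS w hw s (List.dropLast_subset w hs)
  have hsum : ∀ m N : ℕ, 2 ≤ m → ∑ x ∈ X, b x * (R x m N : ℂ) = ∑ w ∈ S, a w * (cf w m N : ℂ) := by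
    intro m N hm
    simp only [hb]
    simp_rw [Finset.sum_mul]
    rw [Finset.sum_comm]
    refine Finset.sum_congr rfl fun w hw => ?_
    have h1 : ∀ x, a w * ((if w = x then (1 : ℂ) else 0) + if w ≠ [] ∧ w.dropLast = x then 1 else 0) * (R x m N : ℂ) =
        (if w = x then a w * (R x m N : ℂ) else 0) + (if w.dropLast = x then (if w ≠ [] then a w * (R x m N : ℂ) else 0)
          else 0) := by
      intro x
      exact ite_aux _ _ _ _ _
    rw [Finset.sum_congr rfl fun x _ => h1 x, Finset.sum_add_distrib, Finset.sum_ite_eq, Finset.sum_ite_eq,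
      if_pos (Finset.mem_union_left _ hw), if_pos (Finset.mem_union_right _ (Finset.mem_image_of_mem _ hw)),
      cf_eq w m N hm]
    by_cases h3 : w = []
    · simp [h3]
    · rw [if_pos h3, if_neg h3]
      push_cast
      ring
  have hb0 : ∀ x ∈ X, b x = 0 := by
    by_contra hcon
    push Not at hcon
    obtain ⟨x0, hx0, hbx0⟩ := hcon
    set Y := X.filter fun x => b x ≠ 0 with hY
    have hYn : Y.Nonempty := ⟨x0, Finset.mem_filter.2 ⟨hx0, hbx0⟩⟩
    obtain ⟨x, hx, hmin⟩ := Finset.exists_min_image Y List.sum hYn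
    have hxX := (Finset.mem_filter.1 hx).1
    have hbx := (Finset.mem_filter.1 hx).2
    set m := max (Nat.nth Nat.Prime x.length) (tn x + 1) with hm
    have hm2 : 2 ≤ m := (q_prime _).two_le.trans (le_max_left _ _)
    have h1 := hsum m (tn x) hm2
    rw [h m (tn x) (tn_ne x) (lt_of_lt_of_le (Nat.lt_succ_self _) (le_max_right _ _)) hm2,
      Finset.sum_eq_single x] at h1
    · rcases mul_eq_zero.1 h1 with h2 | h2
      · exact hbx h2
      · have h3 : R x m (tn x) ≠ 0 := R_mono x (le_max_left _ _) (R_tn x)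
        exact h3 (by exact_mod_cast h2)
    · intro y hy hyx
      by_cases hby : b y = 0
      · rw [hby, zero_mul]
      · have h4 := hmin y (Finset.mem_filter.2 ⟨hy, hby⟩)
        by_cases hR : R y m (tn x) = 0
        · rw [hR]; simp
        · exfalso
          have h5 := weight_le y m (tn x) (tn_ne x) hR
          rw [Om_tn] at h5
          exact hyx (eq_of_R x y m (hXpos x hxX) (hXpos y hy) hR (le_antisymm h5 h4))
    · intro hx'
      exact absurd hxX hx'
  by_contra hcon
  push Not at hcon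
  obtain ⟨w0, hw0, haw0⟩ := hcon
  set Y := S.filter fun x => a x ≠ 0 with hY
  have hYn : Y.Nonempty := ⟨w0, Finset.mem_filter.2 ⟨hw0, haw0⟩⟩
  obtain ⟨w, hw, hmax⟩ := Finset.exists_max_image Y List.length hYn
  have hwS := (Finset.mem_filter.1 hw).1
  have haw := (Finset.mem_filter.1 hw).2
  have h1 := hb0 w (Finset.mem_union_left _ hwS)
  simp only [hb] at h1
  rw [Finset.sum_eq_single w] at h1
  · have h2 : ¬ (w ≠ [] ∧ w.dropLast = w) := by
      rintro ⟨h3, h4⟩
      have h5 := congrArg List.length h4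
      rw [List.length_dropLast] at h5
      have h6 := List.length_pos_iff.2 h3
      omega
    rw [if_pos rfl, if_neg h2, add_zero, mul_one] at h1
    exact haw h1
  · intro v hv hvw
    by_cases hav : a v = 0
    · rw [hav, zero_mul]
    · have h3 := hmax v (Finset.mem_filter.2 ⟨hv, hav⟩)
      have h4 : ¬ (v ≠ [] ∧ v.dropLast = w) := by
        rintro ⟨h5, h6⟩
        have h7 := congrArg List.length h6
        rw [List.length_dropLast] at h7
        have h8 := List.length_pos_iff.2 h5
        omega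
      rw [if_neg hvw, if_neg h4, add_zero, mul_zero]
  · intro h3
    exact absurd hwS h3

end Pool.Agent.Y922.DZ
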