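import Pool.Agent.Y922.DZ.Ser

/-!
# Products of dilated multiple zeta values
-/

set_option autoImplicit false

open Finset Filter Topology

namespace Pool.Agent.Y922.DZ

/-- evaluation of combinations of words at the truncated sums -/
noncomputable def Ev (m : ℕ) (t : ℝ) : (List ℕ →₀ ℝ) →ₗ[ℝ] ℝ := Finsupp.linearCombination ℝ fun x => hr x m t

/-- evaluation of combinations of words -/
noncomputable def Ez (t : ℝ) : (List ℕ →₀ ℝ) →ₗ[ℝ] ℝ := Finsupp.linearCombination ℝ fun x => z x t

theorem Ev_single (m : ℕ) (t : ℝ) (x : List ℕ) (y : ℝ) : Ev m t (Finsupp.single x y) = y * hr x m t := by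
  rw [Ev, Finsupp.linearCombination_single, smul_eq_mul]

theorem Ev_cons (s m : ℕ) (t : ℝ) (c : List ℕ →₀ ℝ) :
    Ev m t (c.mapDomain (s :: ·)) = ∑ i ∈ Ico 1 m, (i : ℝ) ^ (-((s : ℝ) * t)) * Ev i t c := by
  induction c using Finsupp.induction_linear with
  | zero => simp
  | add c d hc hd =>
    rw [Finsupp.mapDomain_add, map_add, hc, hd, ← Finset.sum_add_distrib]
    refine Finset.sum_congr rfl fun i _ => ?_
    rw [map_add]
    ring
  | single x y =>
    rw [Finsupp.mapDomain_single, Ev_single, hr, Finset.mul_sum]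
    refine Finset.sum_congr rfl fun i _ => ?_
    rw [Ev_single]
    ring

theorem sum_mul_sum_Ico (A B : ℕ → ℝ) (m : ℕ) : (∑ i ∈ Ico 1 m, A i) * (∑ i ∈ Ico 1 m, B i) =
    ∑ i ∈ Ico 1 m, A i * ∑ j ∈ Ico 1 i, B j + ∑ i ∈ Ico 1 m, B i * ∑ j ∈ Ico 1 i, A j + ∑ i ∈ Ico 1 m, A i * B i := by
  induction m with
  | zero => simp
  | succ m ih =>
    rcases Nat.eq_zero_or_pos m with rfl | hm
    · simp
    · simp only [Finset.sum_Ico_succ_top hm]
      linear_combination ih

/-- conditions on the words of a product -/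
def Ok (a : ℝ) (u v x : List ℕ) : Prop :=
  ((∀ s ∈ u, 1 ≤ s) → (∀ s ∈ v, 1 ≤ s) → ∀ s ∈ x, 1 ≤ s) ∧ ex a x ≤ ex a u + ex a v ∧ (Cv a u → Cv a v → Cv a x)

theorem Ok.left {a : ℝ} {s : ℕ} {u v x : List ℕ} (h : Ok a u v x) : Ok a (s :: u) v (s :: x) := by
  refine ⟨?_, ?_, ?_⟩
  · intro h1 h2 s' hs'
    rcases List.mem_cons.1 hs' with rfl | h3
    · exact h1 _ (by simp)
    · exact h.1 (fun y hy => h1 y (List.mem_cons_of_mem _ hy)) h2 s' h3
  · rw [ex, ex]
    have h1 := h.2.1
    have h2 := ex_nonneg a v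
    rcases le_total 0 (1 - s * a + ex a u) with h3 | h3
    · rw [max_eq_right h3]
      exact max_le (by linarith) (by linarith)
    · rw [max_eq_left h3]
      exact max_le (by linarith) (by linarith)
  · intro h1 h2
    have h3 : 1 + ex a u < s * a := h1
    have h4 := ex_of_Cv h2
    have h5 := h.2.1
    show 1 + ex a x < s * a
    linarith

theorem Ok.symm {a : ℝ} {u v x : List ℕ} (h : Ok a u v x) : Ok a v u x :=
  ⟨fun h1 h2 => h.1 h2 h1, by rw [add_comm]; exact h.2.1, fun h1 h2 => h.2.2 h2 h1⟩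

theorem Ok.diag {a : ℝ} {s r : ℕ} {u v x : List ℕ} (h : Ok a u v x) : Ok a (s :: u) (r :: v) ((s + r) :: x) := by
  refine ⟨?_, ?_, ?_⟩
  · intro h1 h2 s' hs'
    rcases List.mem_cons.1 hs' with rfl | h3
    · have := h1 s (by simp)
      omega
    · exact h.1 (fun y hy => h1 y (List.mem_cons_of_mem _ hy)) (fun y hy => h2 y (List.mem_cons_of_mem _ hy)) s' h3
  · rw [ex, ex, ex]
    have h1 := h.2.1
    have h2 : (0 : ℝ) ≤ max 0 (1 - s * a + ex a u) := le_max_left _ _
    have h3 : (0 : ℝ) ≤ max 0 (1 - r * a + ex a v) := le_max_left _ _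
    have h4 : 1 - s * a + ex a u ≤ max 0 (1 - s * a + ex a u) := le_max_right _ _
    have h5 : 1 - r * a + ex a v ≤ max 0 (1 - r * a + ex a v) := le_max_right _ _
    refine max_le (by linarith) ?_
    push_cast
    linarith
  · intro h1 h2
    have h3 : 1 + ex a u < s * a := h1
    have h4 : 1 + ex a v < r * a := h2
    have h5 := h.2.1
    show 1 + ex a x < ((s + r : ℕ) : ℝ) * a
    push_cast
    linarith

theorem prod (a : ℝ) (n : ℕ) : ∀ u v : List ℕ, u.length + v.length ≤ n → ∃ c : List ℕ →₀ ℝ,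
    (∀ x ∈ c.support, Ok a u v x) ∧ ∀ (m : ℕ) (t : ℝ), hr u m t * hr v m t = Ev m t c := by
  classical
  induction n with
  | zero =>
    intro u v h
    have hu : u = [] := List.length_eq_zero_iff.1 (by omega)
    have hv : v = [] := List.length_eq_zero_iff.1 (by omega)
    subst hu hv
    refine ⟨Finsupp.single [] 1, fun x hx => ?_, fun m t => ?_⟩
    · rw [Finset.mem_singleton.1 (Finsupp.support_single_subset hx)]
      exact ⟨fun h _ => h, by simp [ex], fun h _ => h⟩
    · rw [Ev_single, hr]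
  | succ n ih =>
    intro u v h
    rcases u with _ | ⟨s, u⟩
    · refine ⟨Finsupp.single v 1, fun x hx => ?_, fun m t => ?_⟩
      · rw [Finset.mem_singleton.1 (Finsupp.support_single_subset hx)]
        exact ⟨fun _ h => h, by simp [ex], fun _ h => h⟩
      · rw [Ev_single, hr]
    rcases v with _ | ⟨r, v⟩
    · refine ⟨Finsupp.single (s :: u) 1, fun x hx => ?_, fun m t => ?_⟩
      · rw [Finset.mem_singleton.1 (Finsupp.support_single_subset hx)]
        exact ⟨fun h _ => h, by simp [ex], fun h _ => h⟩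
      · rw [Ev_single, one_mul]
        have h2 : hr [] m t = 1 := by rw [hr]
        rw [h2, mul_one]
    simp only [List.length_cons] at h
    obtain ⟨c1, hc1, h1⟩ := ih u (r :: v) (by rw [List.length_cons]; omega)
    obtain ⟨c2, hc2, h2⟩ := ih (s :: u) v (by rw [List.length_cons]; omega)
    obtain ⟨c3, hc3, h3⟩ := ih u v (by omega)
    refine ⟨c1.mapDomain (s :: ·) + c2.mapDomain (r :: ·) + c3.mapDomain ((s + r) :: ·), fun x hx => ?_, fun m t => ?_⟩
    · rcases Finset.mem_union.1 (Finsupp.support_add hx) with h4 | h4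
      · rcases Finset.mem_union.1 (Finsupp.support_add h4) with h5 | h5
        · obtain ⟨y, hy, rfl⟩ := Finset.mem_image.1 (Finsupp.mapDomain_support h5)
          exact (hc1 y hy).left
        · obtain ⟨y, hy, rfl⟩ := Finset.mem_image.1 (Finsupp.mapDomain_support h5)
          exact (hc2 y hy).symm.left.symm
      · obtain ⟨y, hy, rfl⟩ := Finset.mem_image.1 (Finsupp.mapDomain_support h4)
        exact (hc3 y hy).diag
    · rw [map_add, map_add, Ev_cons, Ev_cons, Ev_cons]
      have e1 : hr (s :: u) m t = ∑ j ∈ Ico 1 m, (j : ℝ) ^ (-((s : ℝ) * t)) * hr u j t := by rw [hr]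
      have e2 : hr (r :: v) m t = ∑ j ∈ Ico 1 m, (j : ℝ) ^ (-((r : ℝ) * t)) * hr v j t := by rw [hr]
      rw [e1, e2, sum_mul_sum_Ico]
      congr 1
      · congr 1
        · refine Finset.sum_congr rfl fun i _ => ?_
          rw [← h1 i t, hr]
          ring
        · refine Finset.sum_congr rfl fun i _ => ?_
          rw [← h2 i t, hr]
          ring
      · refine Finset.sum_congr rfl fun i hi => ?_
        rw [mem_Ico] at hi
        have hi0 : (0 : ℝ) < i := by exact_mod_cast hi.1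
        rw [← h3 i t]
        have e3 : (i : ℝ) ^ (-(((s + r : ℕ) : ℝ) * t)) = (i : ℝ) ^ (-((s : ℝ) * t)) * (i : ℝ) ^ (-((r : ℝ) * t)) := by
          rw [← Real.rpow_add hi0]
          congr 1
          push_cast
          ring
        rw [e3]
        ring

theorem z_mul {a : ℝ} {u v : List ℕ} (hu : Cv a u) (hv : Cv a v) : ∃ c : List ℕ →₀ ℝ,
    (∀ x ∈ c.support, Ok a u v x) ∧ ∀ t : ℝ, a ≤ t → z u t * z v t = Ez t c := by
  obtain ⟨c, hc, h⟩ := prod a _ u v le_rfl
  refine ⟨c, hc, fun t ht => ?_⟩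
  have h1 := (hr_tendsto (hu.mono ht)).mul (hr_tendsto (hv.mono ht))
  have h2 : Tendsto (fun m : ℕ => Ev (m + 1) t c) atTop (𝓝 (Ez t c)) := by
    simp only [Ev, Ez, Finsupp.linearCombination_apply, Finsupp.sum]
    refine tendsto_finsetSum _ fun x hx => ?_
    exact (hr_tendsto (((hc x hx).2.2 hu hv).mono ht)).const_smul _
  refine tendsto_nhds_unique (h1.congr fun m => ?_) h2
  exact h (m + 1) t

end Pool.Agent.Y922.DZ
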