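import Pool.Agent.Y922.DZ.Comb

/-!
# Dilated multiple zeta values: convergence and Dirichlet series
-/

set_option autoImplicit false

open Finset Filter Topology

namespace Pool.Agent.Y922.DZ

/-- truncated sums -/
noncomputable def hr : List ℕ → ℕ → ℝ → ℝ
  | [], _, _ => 1
  | s :: l, m, t => ∑ j ∈ Ico 1 m, (j : ℝ) ^ (-((s : ℝ) * t)) * hr l j t

/-- the dilated multiple zeta values -/
noncomputable def z : List ℕ → ℝ → ℝ
  | [], _ => 1
  | s :: l, t => ∑' k : ℕ, ((k + 1 : ℕ) : ℝ) ^ (-((s : ℝ) * t)) * hr l (k + 1) t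

/-- the exponent of growth of the truncated sums -/
noncomputable def ex (t : ℝ) : List ℕ → ℝ
  | [] => 0
  | s :: l => max 0 (1 - s * t + ex t l)

/-- convergence -/
def Cv (t : ℝ) : List ℕ → Prop
  | [] => True
  | s :: l => 1 + ex t l < s * t

theorem ex_nonneg (t : ℝ) (l : List ℕ) : 0 ≤ ex t l := by
  cases l with
  | nil => exact le_rfl
  | cons s l => exact le_max_left _ _

theorem ex_of_Cv {t : ℝ} {l : List ℕ} (h : Cv t l) : ex t l = 0 := by
  cases l with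
  | nil => rfl
  | cons s l =>
    have h1 : 1 + ex t l < s * t := h
    rw [ex, max_eq_left]
    linarith

theorem ex_anti {t t' : ℝ} (h : t ≤ t') (l : List ℕ) : ex t' l ≤ ex t l := by
  induction l with
  | nil => exact le_rfl
  | cons s l ih =>
    rw [ex, ex]
    refine max_le_max le_rfl ?_
    have h1 : (s : ℝ) * t ≤ s * t' := mul_le_mul_of_nonneg_left h (Nat.cast_nonneg s)
    linarith

theorem Cv.mono {t t' : ℝ} (h : t ≤ t') {l : List ℕ} (hl : Cv t l) : Cv t' l := by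
  cases l with
  | nil => trivial
  | cons s l =>
    have h1 : 1 + ex t l < s * t := hl
    have h2 := ex_anti h l
    have h3 : (s : ℝ) * t ≤ s * t' := mul_le_mul_of_nonneg_left h (Nat.cast_nonneg s)
    show 1 + ex t' l < s * t'
    linarith

theorem ex_cont (l : List ℕ) : Continuous fun t => ex t l := by
  induction l with
  | nil => exact continuous_const
  | cons s l ih =>
    show Continuous fun t => max 0 (1 - (s : ℝ) * t + ex t l)
    exact continuous_const.max (((continuous_const.sub (continuous_const.mul continuous_id))).add ih)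

theorem Cv.lower {t : ℝ} {l : List ℕ} (hl : Cv t l) : ∃ t' < t, Cv t' l := by
  cases l with
  | nil => exact ⟨t - 1, by linarith, trivial⟩
  | cons s l =>
    have h1 : 1 + ex t l < s * t := hl
    have h2 : ∀ᶠ t' in 𝓝 t, 1 + ex t' l < s * t' :=
      (continuous_const.add (ex_cont l)).continuousAt.eventually_lt (continuous_const.mul continuous_id).continuousAt h1
    obtain ⟨ε, hε, h3⟩ := Metric.eventually_nhds_iff.1 h2
    refine ⟨t - ε / 2, by linarith, ?_⟩
    exact h3 (by rw [Real.dist_eq]; rw [abs_lt]; constructor <;> linarith)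

theorem hr_nonneg (l : List ℕ) : ∀ (m : ℕ) (t : ℝ), 0 ≤ hr l m t := by
  induction l with
  | nil => intro m t; exact zero_le_one
  | cons s l ih =>
    intro m t
    rw [hr]
    exact Finset.sum_nonneg fun j _ => mul_nonneg (Real.rpow_nonneg (Nat.cast_nonneg j) _) (ih j t)

theorem sum_rpow_le (x E : ℝ) (hE : 0 ≤ E) (h : x + 1 < E) :
    ∃ C : ℝ, 0 ≤ C ∧ ∀ m : ℕ, 1 ≤ m → ∑ j ∈ Ico 1 m, (j : ℝ) ^ x ≤ C * (m : ℝ) ^ E := by
  have hs : Summable fun j : ℕ => (j : ℝ) ^ (x - E) := Real.summable_nat_rpow.2 (by linarith)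
  refine ⟨∑' j : ℕ, (j : ℝ) ^ (x - E), tsum_nonneg fun j => Real.rpow_nonneg (Nat.cast_nonneg j) _, fun m hm => ?_⟩
  calc ∑ j ∈ Ico 1 m, (j : ℝ) ^ x ≤ ∑ j ∈ Ico 1 m, (j : ℝ) ^ (x - E) * (m : ℝ) ^ E := by
        refine Finset.sum_le_sum fun j hj => ?_
        rw [mem_Ico] at hj
        have hj0 : (0 : ℝ) < j := by exact_mod_cast hj.1
        have h1 : (j : ℝ) ^ x = (j : ℝ) ^ (x - E) * (j : ℝ) ^ E := by
          rw [← Real.rpow_add hj0]
          congr 1
          ring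
        rw [h1]
        refine mul_le_mul_of_nonneg_left ?_ (Real.rpow_nonneg hj0.le _)
        exact Real.rpow_le_rpow hj0.le (by exact_mod_cast hj.2.le) hE
    _ = (∑ j ∈ Ico 1 m, (j : ℝ) ^ (x - E)) * (m : ℝ) ^ E := by rw [Finset.sum_mul]
    _ ≤ _ := mul_le_mul_of_nonneg_right (hs.sum_le_tsum _ fun j _ => Real.rpow_nonneg (Nat.cast_nonneg j) _)
        (Real.rpow_nonneg (Nat.cast_nonneg m) _)

theorem hr_le (t : ℝ) (l : List ℕ) : ∀ E : ℝ, ex t l < E → ∃ C : ℝ, 0 ≤ C ∧ ∀ m : ℕ, 1 ≤ m → hr l m t ≤ C * (m : ℝ) ^ E := by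
  induction l with
  | nil =>
    intro E hE
    refine ⟨1, zero_le_one, fun m hm => ?_⟩
    rw [hr, one_mul]
    have hE' : (0 : ℝ) < E := hE
    exact Real.one_le_rpow (by exact_mod_cast hm) hE'.le
  | cons s l ih =>
    intro E hE
    rw [ex] at hE
    have h0 : 0 < E := lt_of_le_of_lt (le_max_left _ _) hE
    have h1 : 1 - s * t + ex t l < E := lt_of_le_of_lt (le_max_right _ _) hE
    set E' := (ex t l + (E + s * t - 1)) / 2 with hE'
    obtain ⟨C1, hC1, hb⟩ := ih E' (by rw [hE']; linarith)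
    obtain ⟨C2, hC2, hb2⟩ := sum_rpow_le (-(s * t) + E') E h0.le (by rw [hE']; linarith)
    refine ⟨C1 * C2, mul_nonneg hC1 hC2, fun m hm => ?_⟩
    rw [hr]
    calc ∑ j ∈ Ico 1 m, (j : ℝ) ^ (-((s : ℝ) * t)) * hr l j t
        ≤ ∑ j ∈ Ico 1 m, C1 * (j : ℝ) ^ (-(s * t) + E') := by
          refine Finset.sum_le_sum fun j hj => ?_
          rw [mem_Ico] at hj
          have hj0 : (0 : ℝ) < j := by exact_mod_cast hj.1
          rw [Real.rpow_add hj0]
          calc (j : ℝ) ^ (-((s : ℝ) * t)) * hr l j t ≤ (j : ℝ) ^ (-((s : ℝ) * t)) * (C1 * (j : ℝ) ^ E') :=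
                mul_le_mul_of_nonneg_left (hb j hj.1) (Real.rpow_nonneg hj0.le _)
            _ = _ := by ring
      _ = C1 * ∑ j ∈ Ico 1 m, (j : ℝ) ^ (-(s * t) + E') := by rw [Finset.mul_sum]
      _ ≤ C1 * (C2 * (m : ℝ) ^ E) := mul_le_mul_of_nonneg_left (hb2 m hm) hC1
      _ = _ := by ring

/-- convergence of the outer series -/
theorem summable_outer {t : ℝ} {s : ℕ} {l : List ℕ} (h : Cv t (s :: l)) :
    Summable fun k : ℕ => ((k + 1 : ℕ) : ℝ) ^ (-((s : ℝ) * t)) * hr l (k + 1) t := by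
  have h1 : 1 + ex t l < s * t := h
  set E := (ex t l + (s * t - 1)) / 2 with hE
  obtain ⟨C, hC, hb⟩ := hr_le t l E (by rw [hE]; linarith)
  have hs : Summable fun k : ℕ => C * ((k + 1 : ℕ) : ℝ) ^ (-(s * t) + E) :=
    ((summable_nat_add_iff (f := fun k : ℕ => (k : ℝ) ^ (-(s * t) + E)) 1).2
      (Real.summable_nat_rpow.2 (by rw [hE]; linarith))).mul_left C
  refine Summable.of_nonneg_of_le (fun k => mul_nonneg (Real.rpow_nonneg (Nat.cast_nonneg _) _) (hr_nonneg _ _ _))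
    (fun k => ?_) hs
  have hk0 : (0 : ℝ) < ((k + 1 : ℕ) : ℝ) := by positivity
  rw [Real.rpow_add hk0]
  calc ((k + 1 : ℕ) : ℝ) ^ (-((s : ℝ) * t)) * hr l (k + 1) t
      ≤ ((k + 1 : ℕ) : ℝ) ^ (-((s : ℝ) * t)) * (C * ((k + 1 : ℕ) : ℝ) ^ E) :=
        mul_le_mul_of_nonneg_left (hb (k + 1) (by omega)) (Real.rpow_nonneg hk0.le _)
    _ = _ := by ring

theorem hr_tendsto {t : ℝ} {l : List ℕ} (h : Cv t l) : Tendsto (fun m : ℕ => hr l (m + 1) t) atTop (𝓝 (z l t)) := by
  cases l with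
  | nil => exact tendsto_const_nhds
  | cons s l =>
    have h1 := (summable_outer h).hasSum.tendsto_sum_nat
    rw [z]
    refine h1.congr fun m => ?_
    rw [hr, Finset.sum_Ico_eq_sum_range]
    refine Finset.sum_congr rfl fun k _ => ?_
    rw [add_comm 1 k]

theorem cf_zero (l : List ℕ) : ∀ m : ℕ, cf l m 0 = 0 := by
  induction l with
  | nil => intro m; simp [cf]
  | cons s l ih =>
    intro m
    rw [cf]
    refine Finset.sum_eq_zero fun j _ => ?_
    rw [if_pos (dvd_zero _), Nat.zero_div, ih]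

theorem mul_rpow_aux (j s M : ℕ) (t : ℝ) :
    (((j ^ s * M : ℕ) : ℝ)) ^ (-t) = (j : ℝ) ^ (-((s : ℝ) * t)) * (M : ℝ) ^ (-t) := by
  push_cast
  rw [Real.mul_rpow (by positivity) (by positivity), ← Real.rpow_natCast, ← Real.rpow_mul (by positivity)]
  congr 2
  ring

theorem hasSum_dil {j s : ℕ} (hj : 1 ≤ j) (f : ℕ → ℝ) (a t : ℝ) (h : HasSum (fun N : ℕ => f N * (N : ℝ) ^ (-t)) a) :
    HasSum (fun N : ℕ => (if j ^ s ∣ N then f (N / j ^ s) else 0) * (N : ℝ) ^ (-t))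
      ((j : ℝ) ^ (-((s : ℝ) * t)) * a) := by
  have hj0 : 0 < j ^ s := by positivity
  have hinj : Function.Injective fun M : ℕ => j ^ s * M := fun a b hab => Nat.eq_of_mul_eq_mul_left hj0 hab
  rw [← hinj.hasSum_iff]
  · refine (h.mul_left ((j : ℝ) ^ (-((s : ℝ) * t)))).congr_fun ?_
    intro M
    simp only [Function.comp_apply]
    rw [if_pos (Dvd.intro _ rfl), Nat.mul_div_cancel_left M hj0, mul_rpow_aux]
    ring
  · intro N hN
    rw [if_neg, zero_mul]
    rintro ⟨M, rfl⟩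
    exact hN ⟨M, rfl⟩

theorem hasSum_hr (l : List ℕ) (t : ℝ) : ∀ m : ℕ, HasSum (fun N : ℕ => (cf l m N : ℝ) * (N : ℝ) ^ (-t)) (hr l m t) := by
  induction l with
  | nil =>
    intro m
    have h1 : (fun N : ℕ => (cf [] m N : ℝ) * (N : ℝ) ^ (-t)) = fun N : ℕ => if N = 1 then 1 else 0 := by
      funext N
      rw [cf]
      split_ifs with h
      · rw [h]; simp
      · simp
    rw [h1]
    exact hasSum_ite_eq 1 1
  | cons s l ih =>
    intro m
    have h1 : (fun N : ℕ => (cf (s :: l) m N : ℝ) * (N : ℝ) ^ (-t)) = fun N : ℕ =>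
        ∑ j ∈ Ico 1 m, (if j ^ s ∣ N then (cf l j (N / j ^ s) : ℝ) else 0) * (N : ℝ) ^ (-t) := by
      funext N
      rw [cf, ← Finset.sum_mul]
      push_cast
      rfl
    rw [h1, hr]
    refine hasSum_sum fun j hj => ?_
    rw [mem_Ico] at hj
    exact hasSum_dil hj.1 (fun N => (cf l j N : ℝ)) _ t (ih j)

/-- the coefficients of the Dirichlet series -/
def co (l : List ℕ) (N : ℕ) : ℕ := cf l (N + 1) N

theorem cf_stable (s : ℕ) (hs : 1 ≤ s) (l : List ℕ) (m N : ℕ) (hN : N ≠ 0) (h : N < m) :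
    cf (s :: l) m N = co (s :: l) N := by
  rw [co, cf, cf]
  refine (Finset.sum_subset (Finset.Ico_subset_Ico_right (by omega)) fun j hj hj' => ?_).symm
  rw [mem_Ico] at hj hj'
  rw [if_neg]
  intro hd
  have h1 : j ≤ j ^ s := Nat.le_self_pow (by omega) j
  have h2 := Nat.le_of_dvd (Nat.pos_of_ne_zero hN) hd
  omega

theorem hasSum_z_nil (t : ℝ) : HasSum (fun N : ℕ => (co [] N : ℝ) * (N : ℝ) ^ (-t)) (z [] t) := by
  have h1 := hasSum_hr [] t 0
  have h2 : (fun N : ℕ => (co [] N : ℝ) * (N : ℝ) ^ (-t)) = fun N : ℕ => (cf [] 0 N : ℝ) * (N : ℝ) ^ (-t) := by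
    funext N
    rw [co, cf, cf]
  rw [h2, z]
  rw [hr] at h1
  exact h1

/-- the terms of the double series -/
noncomputable def dt (s : ℕ) (l : List ℕ) (t : ℝ) (k N : ℕ) : ℝ :=
  (if (k + 1) ^ s ∣ N then (cf l (k + 1) (N / (k + 1) ^ s) : ℝ) else 0) * (N : ℝ) ^ (-t)

theorem dt_nonneg (s : ℕ) (l : List ℕ) (t : ℝ) (k N : ℕ) : 0 ≤ dt s l t k N := by
  rw [dt]
  refine mul_nonneg ?_ (Real.rpow_nonneg (Nat.cast_nonneg _) _)
  split_ifs
  · exact Nat.cast_nonneg _
  · exact le_rfl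

theorem dt_hasSum (s : ℕ) (l : List ℕ) (t : ℝ) (k : ℕ) :
    HasSum (dt s l t k) (((k + 1 : ℕ) : ℝ) ^ (-((s : ℝ) * t)) * hr l (k + 1) t) := by
  have h1 := hasSum_dil (j := k + 1) (s := s) (by omega) (fun N => (cf l (k + 1) N : ℝ)) (hr l (k + 1) t) t
    (hasSum_hr l t (k + 1))
  have h2 : dt s l t k = fun N : ℕ => (if (k + 1) ^ s ∣ N then (cf l (k + 1) (N / (k + 1) ^ s) : ℝ) else 0) *
      (N : ℝ) ^ (-t) := by
    funext N
    rw [dt]
  rw [h2]
  exact h1

theorem dt_col {s : ℕ} (hs : 1 ≤ s) (l : List ℕ) {t : ℝ} (ht : t ≠ 0) (N : ℕ) :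
    HasSum (fun k => dt s l t k N) ((co (s :: l) N : ℝ) * (N : ℝ) ^ (-t)) := by
  by_cases hN : N = 0
  · have h1 : (fun k => dt s l t k N) = fun _ => 0 := by
      funext k
      rw [dt, hN, Nat.cast_zero, Real.zero_rpow (neg_ne_zero.2 ht), mul_zero]
    rw [h1, hN, Nat.cast_zero, Real.zero_rpow (neg_ne_zero.2 ht), mul_zero]
    exact hasSum_zero
  · have h1 : (co (s :: l) N : ℝ) * (N : ℝ) ^ (-t) = ∑ k ∈ range N, dt s l t k N := by
      rw [co, cf, Finset.sum_Ico_eq_sum_range, Nat.add_sub_cancel, Nat.cast_sum, Finset.sum_mul]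
      refine Finset.sum_congr rfl fun k _ => ?_
      rw [dt, add_comm 1 k]
      congr 1
      split_ifs
      · rfl
      · exact Nat.cast_zero
    rw [h1]
    refine hasSum_sum_of_ne_finset_zero fun k hk => ?_
    rw [mem_range] at hk
    rw [dt, if_neg, zero_mul]
    intro hd
    have h2 : k + 1 ≤ (k + 1) ^ s := Nat.le_self_pow (by omega) _
    have h3 := Nat.le_of_dvd (Nat.pos_of_ne_zero hN) hd
    omega

theorem double {F : ℕ → ℕ → ℝ} (h0 : ∀ k N, 0 ≤ F k N) {a b : ℕ → ℝ} {A : ℝ} (h1 : ∀ k, HasSum (F k) (a k))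
    (h2 : HasSum a A) (h3 : ∀ N, HasSum (fun k => F k N) (b N)) : HasSum b A := by
  set f : ℕ × ℕ → ℝ := fun x => F x.1 x.2 with hf
  have hfs : Summable f := by
    rw [summable_prod_of_nonneg (fun x => h0 _ _)]
    refine ⟨fun k => (h1 k).summable, ?_⟩
    refine h2.summable.congr fun k => ?_
    exact (h1 k).tsum_eq.symm
  have htot : HasSum f A := by
    have h4 := hfs.hasSum.prod_fiberwise h1
    have h5 := h4.unique h2
    rw [← h5]
    exact hfs.hasSum
  have hsw : HasSum (fun x : ℕ × ℕ => F x.2 x.1) A := (Equiv.prodComm ℕ ℕ).hasSum_iff.2 htot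
  exact hsw.prod_fiberwise h3

theorem hasSum_z {t : ℝ} (ht : t ≠ 0) {l : List ℕ} (hl : ∀ s ∈ l, 1 ≤ s) (h : Cv t l) :
    HasSum (fun N : ℕ => (co l N : ℝ) * (N : ℝ) ^ (-t)) (z l t) := by
  cases l with
  | nil => exact hasSum_z_nil t
  | cons s l =>
    have hs := hl s (by simp)
    have hout := (summable_outer h).hasSum
    rw [z]
    exact double (dt_nonneg s l t) (dt_hasSum s l t) hout (dt_col hs l ht)

end Pool.Agent.Y922.DZ
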